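import Pool.Agent.Helper37.SU.Stmts
import Pool.Agent.Helper44.SU.NTA
import Pool.Agent.Helper42.SU.OM
import Pool.Agent.Helper5.SU.SCH
import Pool.Agent.Helper42.SU.KER
import Pool.Agent.Helper42.SU.KLP
import Pool.Agent.Helper59.SU.MNS
import Pool.Agent.Helper5.SU.LPT
import Pool.Agent.Helper42.SU.VPB
import Pool.Agent.Helper22.SU.IXB
import Pool.Agent.Helper22.SU.TRL
import Pool.Agent.Helper22.SU.EVI
import Pool.Agent.Helper42.SU.DKS
import Pool.Agent.Helper72.SU.NMI
import Pool.Agent.Helper46.SU.MCT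
import Pool.Agent.Helper46.SU.BXI
import Pool.Agent.Helper46.SU.RPR
import Pool.Agent.Helper94.SU.AN1
import Pool.Agent.Helper42.SU.HKI
import Pool.Agent.Helper5.SU.PHB
import Pool.Agent.Helper5.SU.KAB
import Pool.Agent.Helper5.SU.DLV
import Pool.Agent.Helper5.SU.NFA
import Pool.Agent.Helper51.SU.PK
import Pool.Agent.Helper3.SU.FKB
import Pool.Agent.Helper82.SU.NHI
import Pool.Agent.Helper82.SU.NLO
import Pool.Agent.Helper97.SU.ALG
import Pool.Agent.Helper35.SU.DEN
import Pool.Agent.Helper45.SU.NUM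
import Pool.Agent.Helper44.SU.SHR
import Pool.Agent.Helper3.SU.NET
import Pool.Agent.Helper46.SU.MOM
import Pool.Agent.Helper44.SU.HKB
import Pool.Agent.Helper72.SU.INT
import Pool.Agent.Helper5.SU.ENF
import Pool.Agent.Helper2.SU.HB
import Pool.Agent.Helper52.SU.OVX
import Pool.Agent.Helper46.SU.SYI
import Pool.Agent.Helper44.SU.DC4
import Pool.Agent.Helper7.SU.R3
import Pool.Agent.Helper5.SU.KAP
import Pool.Agent.Helper5.SU.DC2
import Pool.Agent.Helper5.SU.DC5
import Pool.Agent.Helper5.SU.AN3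
import Pool.Agent.Helper94.SU.AN0
import Pool.Agent.Helper3.SU.TL
import Pool.Agent.Helper97.SU.DC3
import Pool.Agent.Helper52.SU.NQ
import Pool.Agent.Helper7.SU.EC
import Pool.Agent.Helper97.SU.DC1
import Pool.Agent.Helper72.SU.SYN
import Pool.Agent.Helper63.SU.TLE
import Pool.Agent.Helper2.SU.ENN
import Pool.Agent.Helper7.SU.R2
import Pool.Agent.Helper3.SU.DEC
import Pool.Agent.Helper79.SU.AN2
import Pool.Agent.Helper7.SU.R1
import Pool.Agent.Helper3.SU.EB
import Pool.Agent.Helper91.SU.ANL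
import Pool.Agent.Helper25.SU.EMB
import Pool.Agent.Helper84.SU.ERR
import Pool.Agent.Helper71.SU.MAIN
import Pool.Agent.Helper91.SU.FIN

set_option autoImplicit false

/-!
Assembly of the project SU (MP_aa31b4_an).
-/

namespace Pool.Agent.Helper37.SU

theorem all_NTA : ST_NTA := st_NTA
theorem all_OM : ST_OM := st_OM
theorem all_SCH : ST_SCH := st_SCH
theorem all_KER : ST_KER := st_KER
theorem all_KLP : ST_KLP := st_KLP all_KER
theorem all_MNS : ST_MNS := st_MNS
theorem all_LPT : ST_LPT := st_LPT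
theorem all_VPB : ST_VPB := st_VPB all_OM all_KLP
theorem all_IXB : ST_IXB := st_IXB
theorem all_TRL : ST_TRL := st_TRL
theorem all_EVI : ST_EVI := st_EVI
theorem all_DKS : ST_DKS := st_DKS all_OM
theorem all_NMI : ST_NMI := st_NMI
theorem all_MCT : ST_MCT := st_MCT
theorem all_BXI : ST_BXI := st_BXI all_IXB
theorem all_RPR : ST_RPR := st_RPR all_OM
theorem all_AN1 : ST_AN1 := st_AN1 all_DKS
theorem all_HKI : ST_HKI := st_HKI all_OM
theorem all_PHB : ST_PHB := st_PHB all_VPB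
theorem all_KAB : ST_KAB := st_KAB all_VPB
theorem all_DLV : ST_DLV := st_DLV
theorem all_NFA : ST_NFA := st_NFA
theorem all_PK : ST_PK := st_PK all_VPB
theorem all_FKB : ST_FKB := st_FKB all_OM all_KLP
theorem all_NHI : ST_NHI := st_NHI
theorem all_NLO : ST_NLO := st_NLO
theorem all_ALG : ST_ALG := st_ALG
theorem all_DEN : ST_DEN := st_DEN all_VPB all_EVI all_OM
theorem all_NUM : ST_NUM := st_NUM all_NLO all_NHI all_NMI all_NFA
theorem all_SHR : ST_SHR := st_SHR all_IXB
theorem all_NET : ST_NET := st_NET all_NTA all_IXB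
theorem all_MOM : ST_MOM := st_MOM all_IXB all_MCT all_MNS all_BXI
theorem all_HKB : ST_HKB := st_HKB all_OM all_KLP all_VPB
theorem all_INT : ST_INT := st_INT all_DLV
theorem all_ENF : ST_ENF := st_ENF all_PHB all_HKI
theorem all_HB : ST_HB := st_HB all_HKB all_SCH all_EVI
theorem all_OVX : ST_OVX := st_OVX all_IXB all_EVI
theorem all_SYI : ST_SYI := st_SYI all_MOM all_IXB
theorem all_DC4 : ST_DC4 := st_DC4 all_RPR all_DKS
theorem all_R3 : ST_R3 := st_R3 all_ENF all_OVX all_EVI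
theorem all_KAP : ST_KAP := st_KAP all_OM all_RPR
theorem all_DC2 : ST_DC2 := st_DC2 all_KAP
theorem all_DC5 : ST_DC5 := st_DC5 all_RPR all_DKS
theorem all_AN3 : ST_AN3 := st_AN3 all_KAB all_SCH all_EVI
theorem all_AN0 : ST_AN0 := st_AN0 all_KAP all_DKS
theorem all_TL : ST_TL := st_TL all_SHR
theorem all_DC3 : ST_DC3 := st_DC3 all_DKS all_OM all_HKB
theorem all_NQ : ST_NQ := st_NQ all_IXB all_OVX all_EVI
theorem all_EC : ST_EC := st_EC all_R3 all_SCH
theorem all_DC1 : ST_DC1 := st_DC1 all_KAP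
theorem all_SYN : ST_SYN := st_SYN all_SYI all_TRL all_IXB
theorem all_TLE : ST_TLE := st_TLE all_TL all_TRL
theorem all_ENN : ST_ENN := st_ENN all_NQ all_PK all_HKI
theorem all_R2 : ST_R2 := st_R2 all_ENF all_TLE all_SYN
theorem all_DEC : ST_DEC := st_DEC all_DC1 all_DC2 all_DC3 all_DC4 all_DC5
theorem all_AN2 : ST_AN2 := st_AN2 all_FKB all_SYN all_AN1 all_DLV
theorem all_R1 : ST_R1 := st_R1 all_ENN all_ENF all_OVX all_EVI
theorem all_EB : ST_EB := st_EB all_R1 all_R2 all_R3 all_INT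
theorem all_ANL : ST_ANL := Pool.Agent.Helper91.SU.st_ANL all_AN0 all_AN2 all_AN3 all_LPT
theorem all_EMB : ST_EMB := st_EMB all_DC1 all_DC2 all_SYN all_PHB all_ANL
theorem all_ERR : ST_ERR := st_ERR all_DEC all_SYN all_PHB all_LPT all_ANL all_EB all_EC all_HB
theorem all_MAIN : ST_MAIN := st_MAIN all_NET all_ERR all_NUM all_ALG
theorem all_FIN : ST_FIN := st_FIN all_MAIN all_DEN all_EMB

end Pool.Agent.Helper37.SU
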