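import Mathlib
import Pool.Agent.Helper37.SN.FinalDefs

set_option autoImplicit false

/-!
Statements of the project SU: upper bounds for the sampling numbers of mixed Sobolev classes
(MP_aa31b4_an). For `d ≥ 2`, `1 < p < 2 < q`, `r > 1/p` the sparse grid rate is not optimal.
-/

namespace Pool.Agent.Helper37.SU

open MeasureTheory Finset
open scoped ENNReal Classical

/-! ### Basic objects -/

/-- the `d`-dimensional torus `(ℝ/ℤ)^d` -/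
abbrev TT (d : ℕ) : Type := Fin d → UnitAddCircle

/-- normalized Haar measure on the circle -/
noncomputable def haar1 : Measure UnitAddCircle := AddCircle.haarAddCircle

/-- normalized Haar measure on the torus -/
noncomputable def haar (d : ℕ) : Measure (TT d) := Measure.pi (fun _ => haar1)

/-- Fourier coefficient of the kernel `F_r(x) = 1 + 2 ∑ k^(-r) cos (k x - r π / 2)` -/
noncomputable def mult (r : ℝ) (n : ℤ) : ℂ :=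
  if n = 0 then 1
  else ((|(n : ℝ)| ^ (-r) : ℝ) : ℂ) *
    Complex.exp (-(Complex.I * ((Real.pi / 2 * r * ((Int.sign n : ℤ) : ℝ) : ℝ) : ℂ)))

/-- trigonometric polynomial -/
noncomputable def tp {d : ℕ} (Λ : Finset (Fin d → ℤ)) (c : (Fin d → ℤ) → ℂ) (t : TT d) : ℂ :=
  ∑ k ∈ Λ, c k * ∏ i, (fourier (k i) (t i) : ℂ)

/-- coefficients of `F_r * φ` -/
noncomputable def mc {d : ℕ} (r : ℝ) (c : (Fin d → ℤ) → ℂ) (k : Fin d → ℤ) : ℂ :=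
  (∏ i, mult r (k i)) * c k

/-- boxes (or grid points): shape and index -/
abbrev Bo (d : ℕ) : Type := (Fin d → ℕ) × (Fin d → ℕ)

/-- shapes of level `l` -/
noncomputable def shp (d l : ℕ) : Finset (Fin d → ℕ) :=
  (Fintype.piFinset fun _ => range (l + 1)).filter (fun s => ∑ i, s i = l)

/-- indices of the boxes of shape `s` -/
def gr {d : ℕ} (b : ℕ) (s : Fin d → ℕ) : Finset (Fin d → ℕ) :=
  Fintype.piFinset fun i => range (b ^ s i)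

/-- boxes of level `l` -/
noncomputable def lev (b d l : ℕ) : Finset (Bo d) :=
  (shp d l).biUnion fun s => (gr b s).image fun a => (s, a)

/-- representative in `[0, 1)` -/
noncomputable def fr (t : UnitAddCircle) : ℝ := (AddCircle.equivIco (1 : ℝ) 0 t : ℝ)

/-- index of the `b`-adic interval of length `b ^ (-j)` containing `t` -/
noncomputable def ix (b j : ℕ) (t : UnitAddCircle) : ℕ := ⌊(b : ℝ) ^ j * fr t⌋₊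

/-- `t` lies in the box `B` -/
def inB {d : ℕ} (b : ℕ) (B : Bo d) (t : TT d) : Prop := ∀ i, ix b (B.1 i) (t i) = B.2 i

/-- the grid point `a / b ^ j` -/
noncomputable def pt (b j a : ℕ) : UnitAddCircle := (((a : ℝ) / (b : ℝ) ^ j : ℝ) : UnitAddCircle)

/-- the corner of a box -/
noncomputable def ptv {d : ℕ} (b : ℕ) (B : Bo d) : TT d := fun i => pt b (B.1 i) (B.2 i)

/-- envelope on the circle -/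
noncomputable def ev (b j : ℕ) (t : UnitAddCircle) : ℝ := ((1 + (b : ℝ) ^ j * ‖t‖) ^ 2)⁻¹

/-- envelope of a box -/
noncomputable def EV {d : ℕ} (b : ℕ) (B : Bo d) (t : TT d) : ℝ :=
  ∏ i, ev b (B.1 i) (t i - pt b (B.1 i) (B.2 i))

/-- the `ℓ_u` norm -/
noncomputable def lp {ι : Type} (u : ℝ) (S : Finset ι) (y : ι → ℂ) : ℝ :=
  (∑ i ∈ S, ‖y i‖ ^ u) ^ (1 / u)

/-- `(0, m, d)`-nets in base `b` -/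
def IsNet (b d m : ℕ) (x : Fin (b ^ m) → TT d) : Prop :=
  ∀ B : Bo d, ∑ i, B.1 i ≤ m → (∀ i, B.2 i < b ^ B.1 i) →
    (univ.filter (fun p => inB b B (x p))).card = b ^ (m - ∑ i, B.1 i)

/-! ### Kernels -/

/-- the basic multiplier: `1` on `[-1/4, 1/4]`, `0` outside `(-3/4, 3/4)` -/
noncomputable def om (ξ : ℝ) : ℝ :=
  Real.smoothTransition (3 / 2 - 2 * ξ) * Real.smoothTransition (3 / 2 + 2 * ξ)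

/-- de la Vallee Poussin kernel -/
noncomputable def vp (b j : ℕ) (t : UnitAddCircle) : ℂ :=
  ∑ k ∈ Icc (-((b : ℤ) ^ j)) ((b : ℤ) ^ j), ((om ((k : ℝ) / (b : ℝ) ^ j) : ℝ) : ℂ) * fourier k t

/-- interpolation kernel -/
noncomputable def ik (b j : ℕ) (t : UnitAddCircle) : ℂ := ((b : ℂ) ^ j)⁻¹ * vp b j t

/-- Fourier coefficients of the blocks -/
noncomputable def dkc (b j : ℕ) (k : ℤ) : ℝ :=
  if j = 0 then 0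
  else if j = 1 then om (k : ℝ)
  else om ((k : ℝ) / (b : ℝ) ^ (j - 1)) - om ((k : ℝ) / (b : ℝ) ^ (j - 2))

/-- block kernels -/
noncomputable def dk (b j : ℕ) (t : UnitAddCircle) : ℂ :=
  ∑ k ∈ Icc (-((b : ℤ) ^ j)) ((b : ℤ) ^ j), ((dkc b j k : ℝ) : ℂ) * fourier k t

/-- block kernels of the fractional integral -/
noncomputable def fk (r : ℝ) (b j : ℕ) (t : UnitAddCircle) : ℂ :=
  ∑ k ∈ Icc (-((b : ℤ) ^ j)) ((b : ℤ) ^ j), mult r k * ((dkc b j k : ℝ) : ℂ) * fourier k t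

/-- `dk b i * ik b i'` (convolution) -/
noncomputable def hk (b i i' : ℕ) (t : UnitAddCircle) : ℂ :=
  ∑ k ∈ Icc (-((b : ℤ) ^ i)) ((b : ℤ) ^ i),
    ((b : ℂ) ^ i')⁻¹ * ((dkc b i k * om ((k : ℝ) / (b : ℝ) ^ i') : ℝ) : ℂ) * fourier k t

/-- kernels of the interpolation blocks -/
noncomputable def kap (b j a : ℕ) (t : UnitAddCircle) : ℂ :=
  if j = 0 then 0
  else if j = 1 then (if a = 0 then 1 else 0)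
  else (if b ∣ a then ik b (j - 1) (t - pt b j a) else 0) -
    (if b ^ 2 ∣ a then ik b (j - 2) (t - pt b j a) else 0)

/-- the interpolation block of a character -/
noncomputable def D1 (b j : ℕ) (k : ℤ) (t : UnitAddCircle) : ℂ :=
  ∑ a ∈ range (b ^ j), (fourier k (pt b j a) : ℂ) * kap b j a t

/-- interpolation block of shape `s` -/
noncomputable def Dop {d : ℕ} (b : ℕ) (s : Fin d → ℕ) (f : TT d → ℂ) (t : TT d) : ℂ :=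
  ∑ a ∈ gr b s, f (ptv b (s, a)) * ∏ i, kap b (s i) (a i) (t i)

/-- samples of the interpolation blocks -/
noncomputable def zz {d : ℕ} (b : ℕ) (f : TT d → ℂ) (B : Bo d) : ℂ := Dop b B.1 f (ptv b B)

/-- basis functions -/
noncomputable def Phi {d : ℕ} (b : ℕ) (B : Bo d) (t : TT d) : ℂ :=
  ∏ i, ik b (B.1 i) (t i - pt b (B.1 i) (B.2 i))

/-- block kernel of shape `s` -/
noncomputable def DK {d : ℕ} (b : ℕ) (s : Fin d → ℕ) (t : TT d) : ℂ := ∏ i, dk b (s i) (t i)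

/-- exact coefficients -/
noncomputable def Hm {d : ℕ} (b : ℕ) (B B' : Bo d) : ℂ :=
  ∏ i, hk b (B.1 i) (B'.1 i) (pt b (B.1 i) (B.2 i) - pt b (B'.1 i) (B'.2 i))

/-- error coefficients of the quadrature -/
noncomputable def Ent {d : ℕ} (b m : ℕ) (x : Fin (b ^ m) → TT d) (B B' : Bo d) : ℂ :=
  ((b : ℂ) ^ m)⁻¹ * ∑ p, DK b B.1 (ptv b B - x p) * Phi b B' (x p) - Hm b B B'

/-- block of shape `σ` of `F_r * φ`, `φ = tp Λ c` -/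
noncomputable def dl {d : ℕ} (r : ℝ) (b : ℕ) (σ : Fin d → ℕ) (Λ : Finset (Fin d → ℤ))
    (c : (Fin d → ℤ) → ℂ) (t : TT d) : ℂ :=
  tp Λ (fun k => (∏ i, ((dkc b (σ i) (k i) : ℝ) : ℂ)) * mc r c k) t

/-- sparse grid operator -/
noncomputable def Sn {d : ℕ} (b n₁ : ℕ) (f : TT d → ℂ) (t : TT d) : ℂ :=
  ∑ l ∈ range (n₁ + 1), ∑ s ∈ shp d l, Dop b s f t

/-- the algorithm -/
noncomputable def Aop {d : ℕ} (b m n₀ n₁ n : ℕ) (x : Fin (b ^ m) → TT d) (f : TT d → ℂ)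
    (t : TT d) : ℂ :=
  Sn b n₁ f t + ∑ l ∈ Icc n₀ n, ∑ s ∈ shp d l,
    ((b : ℂ) ^ m)⁻¹ * ∑ p, (f (x p) - Sn b n₁ f (x p)) * DK b s (t - x p)

/-! ### Elementary lemmas -/

theorem mem_shp {d l : ℕ} {s : Fin d → ℕ} : s ∈ shp d l ↔ ∑ i, s i = l := by
  unfold shp
  simp only [mem_filter, Fintype.mem_piFinset, mem_range, and_iff_right_iff_imp]
  intro h i
  have : s i ≤ ∑ i, s i := Finset.single_le_sum (fun _ _ => Nat.zero_le _) (mem_univ i)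
  omega

theorem mem_gr {d b : ℕ} {s a : Fin d → ℕ} : a ∈ gr b s ↔ ∀ i, a i < b ^ s i := by
  unfold gr
  simp

theorem mem_lev {b d l : ℕ} {B : Bo d} :
    B ∈ lev b d l ↔ ∑ i, B.1 i = l ∧ ∀ i, B.2 i < b ^ B.1 i := by
  unfold lev
  simp only [mem_biUnion, mem_image, mem_shp, mem_gr]
  constructor
  · rintro ⟨s, hs, a, ha, rfl⟩
    exact ⟨hs, ha⟩
  · rintro ⟨h1, h2⟩
    exact ⟨B.1, h1, B.2, h2, rfl⟩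

theorem sum_lev {b d l : ℕ} {M : Type*} [AddCommMonoid M] (F : Bo d → M) :
    ∑ B ∈ lev b d l, F B = ∑ s ∈ shp d l, ∑ a ∈ gr b s, F (s, a) := by
  unfold lev
  rw [Finset.sum_biUnion]
  · refine Finset.sum_congr rfl fun s _ => ?_
    rw [Finset.sum_image]
    intro a _ a' _ h
    exact (Prod.mk.inj h).2
  · intro s _ s' _ hne
    simp only [Function.onFun]
    rw [Finset.disjoint_left]
    intro B hB hB'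
    simp only [mem_image] at hB hB'
    obtain ⟨a, _, rfl⟩ := hB
    obtain ⟨a', _, h⟩ := hB'
    exact hne (Prod.mk.inj h).1.symm

theorem card_shp_le {d l : ℕ} (hd : 1 ≤ d) : (shp d l).card ≤ (l + 1) ^ (d - 1) := by
  obtain ⟨e, rfl⟩ : ∃ e, d = e + 1 := ⟨d - 1, by omega⟩
  have h : (shp (e + 1) l).card ≤ (Fintype.piFinset fun _ : Fin e => range (l + 1)).card := by
    refine Finset.card_le_card_of_injOn (fun s i => s i.castSucc) ?_ ?_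
    · intro s hs
      have hs' : ∑ i, s i = l := mem_shp.1 hs
      simp only [Finset.mem_coe, Fintype.mem_piFinset, mem_range]
      intro i
      have : s i.castSucc ≤ ∑ i, s i :=
        Finset.single_le_sum (fun _ _ => Nat.zero_le _) (mem_univ _)
      omega
    · intro s hs s' hs' h
      have h1 : ∑ i, s i = l := mem_shp.1 hs
      have h2 : ∑ i, s' i = l := mem_shp.1 hs'
      rw [Fin.sum_univ_castSucc] at h1 h2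
      have h3 : ∀ i : Fin e, s i.castSucc = s' i.castSucc := fun i => congrFun h i
      have h4 : s (Fin.last e) = s' (Fin.last e) := by
        have : ∑ i : Fin e, s i.castSucc = ∑ i : Fin e, s' i.castSucc :=
          Finset.sum_congr rfl fun i _ => h3 i
        omega
      funext i
      refine Fin.lastCases h4 (fun i => h3 i) i
  refine h.trans (le_of_eq ?_)
  simp

/-! ### Kernel estimates -/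

/-- OM: the basic multiplier. -/
def ST_OM : Prop := ContDiff ℝ (⊤ : ℕ∞) om ∧ (∀ ξ, |ξ| ≤ 1 / 4 → om ξ = 1) ∧
  (∀ ξ, 3 / 4 ≤ |ξ| → om ξ = 0) ∧ (∀ ξ, 0 ≤ om ξ ∧ om ξ ≤ 1) ∧ ∀ ξ, om (-ξ) = om ξ

/-- KER: kernels with smooth multipliers. -/
def ST_KER : Prop := ∃ C : ℝ, 0 < C ∧ ∀ (a : ℝ) (Ψ : ℝ → ℂ), ContDiff ℝ 2 Ψ →
  (∀ ξ, 1 ≤ |ξ| → Ψ ξ = 0) → (∀ ξ, ‖Ψ ξ‖ ≤ a) → (∀ ξ, ‖iteratedDeriv 2 Ψ ξ‖ ≤ a) →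
  ∀ (M : ℕ) (t : UnitAddCircle), 1 ≤ M →
  ‖∑ k ∈ Icc (-(M : ℤ)) (M : ℤ), Ψ ((k : ℝ) / M) * (fourier k t : ℂ)‖ ≤
    C * a * M * ((1 + M * ‖t‖) ^ 2)⁻¹

/-- KLP: Lipschitz bounds for kernels with smooth multipliers. -/
def ST_KLP : Prop := ∀ Ψ : ℝ → ℂ, ContDiff ℝ 2 Ψ → (∀ ξ, 1 ≤ |ξ| → Ψ ξ = 0) →
  ∃ C : ℝ, 0 < C ∧ ∀ (M : ℕ) (t t' : UnitAddCircle), 1 ≤ M →
  ‖∑ k ∈ Icc (-(M : ℤ)) (M : ℤ), Ψ ((k : ℝ) / M) * (fourier k t : ℂ)‖ ≤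
    C * M * ((1 + M * ‖t‖) ^ 2)⁻¹ ∧
  ‖(∑ k ∈ Icc (-(M : ℤ)) (M : ℤ), Ψ ((k : ℝ) / M) * (fourier k t : ℂ)) -
      ∑ k ∈ Icc (-(M : ℤ)) (M : ℤ), Ψ ((k : ℝ) / M) * (fourier k t' : ℂ)‖ ≤
    C * M ^ 2 * ‖t - t'‖ * (((1 + M * ‖t‖) ^ 2)⁻¹ + ((1 + M * ‖t'‖) ^ 2)⁻¹)

/-- VPB: bounds for the kernels. -/
def ST_VPB : Prop := ∀ b : ℕ, 2 ≤ b → ∃ C : ℝ, 0 < C ∧ ∀ (j : ℕ) (t t' : UnitAddCircle),
  ‖vp b j t‖ ≤ C * (b : ℝ) ^ j * ev b j t ∧ ‖dk b j t‖ ≤ C * (b : ℝ) ^ j * ev b j t ∧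
  ‖vp b j t - vp b j t'‖ ≤ C * ((b : ℝ) ^ j) ^ 2 * ‖t - t'‖ * (ev b j t + ev b j t') ∧
  ‖dk b j t - dk b j t'‖ ≤ C * ((b : ℝ) ^ j) ^ 2 * ‖t - t'‖ * (ev b j t + ev b j t')

/-- FKB: bounds for the blocks of the fractional integral. -/
def ST_FKB : Prop := ∀ (r : ℝ) (b : ℕ), 2 ≤ b → ∃ C : ℝ, 0 < C ∧ ∀ (j : ℕ) (t : UnitAddCircle),
  ‖fk r b j t‖ ≤ C * (b : ℝ) ^ ((1 - r) * j) * ev b j t

/-- HKB: bounds for the convolved kernels. -/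
def ST_HKB : Prop := ∀ b : ℕ, 3 ≤ b → ∃ C : ℝ, 0 < C ∧ ∀ (i i' : ℕ) (t : UnitAddCircle),
  ‖hk b i i' t‖ ≤ C * ((b : ℝ) ^ (i' - i))⁻¹ * ev b i t ∧ (i' + 3 ≤ i → hk b i i' t = 0)

/-- HKI: the convolved kernels are convolutions. -/
def ST_HKI : Prop := ∀ (b i i' : ℕ) (t c : UnitAddCircle), 3 ≤ b →
  ∫ x, dk b i (t - x) * ik b i' (x - c) ∂haar1 = hk b i i' (t - c)

/-- DKS: the blocks sum up. -/
def ST_DKS : Prop := ∀ (b : ℕ) (k : ℤ), 2 ≤ b →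
  (∀ j : ℕ, 4 * |k| ≤ (b : ℤ) ^ j → ∀ J : ℕ, j + 2 ≤ J → ∑ i ∈ range J, dkc b i k = 1) ∧
  (∀ j : ℕ, 4 * |k| ≤ (b : ℤ) ^ j → dkc b (j + 2) k = 0) ∧
  (∀ j : ℕ, 1 ≤ j → dkc b j k ≠ 0 → 4 * |k| < 3 * (b : ℤ) ^ (j - 1)) ∧
  (∀ j : ℕ, 2 ≤ j → dkc b j k ≠ 0 → (b : ℤ) ^ (j - 2) < 4 * |k|)

/-- RPR: band limited functions are reproduced from their samples. -/
def ST_RPR : Prop := ∀ (b j : ℕ) (Λ : Finset ℤ) (c : ℤ → ℂ) (t : UnitAddCircle), 1 ≤ b →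
  (∀ k ∈ Λ, 4 * |k| ≤ (b : ℤ) ^ j) →
  ∑ k ∈ Λ, c k * (fourier k t : ℂ) =
    ∑ a ∈ range (b ^ j), (∑ k ∈ Λ, c k * (fourier k (pt b j a) : ℂ)) * ik b j (t - pt b j a)

/-- KAP: the kernels of the interpolation blocks. -/
def ST_KAP : Prop := ∀ b : ℕ, 3 ≤ b →
  (∀ (j a : ℕ) (t : UnitAddCircle), kap b j a t =
    ∑ a' ∈ range (b ^ j), kap b j a (pt b j a') * ik b j (t - pt b j a')) ∧
  (∀ (J : ℕ) (k : ℤ) (t : UnitAddCircle), 4 * |k| ≤ (b : ℤ) ^ J →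
    ∑ j ∈ range (J + 2), D1 b j k t = fourier k t) ∧
  (∀ (j : ℕ) (k : ℤ) (t : UnitAddCircle), 4 * |k| ≤ (b : ℤ) ^ j → D1 b (j + 2) k t = 0)

/-- KAB: bound for the kernels of the interpolation blocks. -/
def ST_KAB : Prop := ∀ b : ℕ, 3 ≤ b → ∃ C : ℝ, 0 < C ∧ ∀ (j a : ℕ) (t : UnitAddCircle),
  ‖kap b j a t‖ ≤ C * ev b j (t - pt b j a)

/-- EVI: integrals and sums of envelopes. -/
def ST_EVI : Prop := ∀ b d : ℕ, 2 ≤ b → ∃ C : ℝ, 0 < C ∧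
  (∀ (σ : Fin d → ℕ) (c : TT d), Integrable (fun t : TT d => ∏ i, ev b (σ i) (t i - c i)) (haar d) ∧
    ∫ t : TT d, ∏ i, ev b (σ i) (t i - c i) ∂haar d ≤ C * ((b : ℝ) ^ (∑ i, σ i))⁻¹) ∧
  (∀ (s : Fin d → ℕ) (t : TT d), ∑ a ∈ gr b s, EV b (s, a) t ≤ C)

/-! ### Discrete decomposition -/

/-- DC1: a trigonometric polynomial is the sum of its interpolation blocks. -/
def ST_DC1 : Prop := ∀ (b d : ℕ) (Λ : Finset (Fin d → ℤ)) (c : (Fin d → ℤ) → ℂ), 3 ≤ b →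
  ∃ L₀ : ℕ, ∀ L : ℕ, L₀ ≤ L → ∀ t : TT d,
  tp Λ c t = ∑ l ∈ range (L + 1), ∑ s ∈ shp d l, Dop b s (tp Λ c) t

/-- DC2: the interpolation blocks are reproduced from their samples. -/
def ST_DC2 : Prop := ∀ (b d : ℕ) (s : Fin d → ℕ) (f : TT d → ℂ) (t : TT d), 3 ≤ b →
  Dop b s f t = ∑ a ∈ gr b s, zz b f (s, a) * Phi b (s, a) t

/-- DC3: decomposition of a basis function into blocks. -/
def ST_DC3 : Prop := ∀ (b d : ℕ) (B : Bo d) (t : TT d) (L : ℕ), 3 ≤ b →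
  ∑ i, B.1 i + 2 * d ≤ L → Phi b B t = ∑ l ∈ range (L + 1), ∑ s ∈ shp d l,
    ∏ i, hk b (s i) (B.1 i) (t i - pt b (B.1 i) (B.2 i))

/-- DC4: the blocks of a basis function are reproduced from their samples. -/
def ST_DC4 : Prop := ∀ (b d : ℕ) (s : Fin d → ℕ) (B : Bo d) (t : TT d), 3 ≤ b →
  ∏ i, hk b (s i) (B.1 i) (t i - pt b (B.1 i) (B.2 i)) =
    ∑ a ∈ gr b s, Hm b (s, a) B * Phi b (s, a) t

/-- DC5: the block kernels are reproduced from their samples. -/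
def ST_DC5 : Prop := ∀ (b d : ℕ) (s : Fin d → ℕ) (y t : TT d), 3 ≤ b →
  DK b s (t - y) = ∑ a ∈ gr b s, DK b s (ptv b (s, a) - y) * Phi b (s, a) t

/-- DEC: the error of the algorithm. -/
def ST_DEC : Prop := ∀ (b d m n₀ n₁ n : ℕ) (x : Fin (b ^ m) → TT d) (Λ : Finset (Fin d → ℤ))
  (c : (Fin d → ℤ) → ℂ), 3 ≤ b → ∃ L₀ : ℕ, ∀ L : ℕ, L₀ ≤ L → ∀ t : TT d,
  tp Λ c t - Aop b m n₀ n₁ n x (tp Λ c) t =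
    ∑ l ∈ range (L + 2 * d + 1), ∑ B ∈ lev b d l,
      (∑ l' ∈ Ioc n₁ L, ∑ B' ∈ lev b d l',
        (if n₀ ≤ l ∧ l ≤ n then -Ent b m x B B' else Hm b B B') * zz b (tp Λ c) B') * Phi b B t

/-! ### Sums of box functions -/

/-- IXB: basic facts on the index of the `b`-adic interval. -/
def ST_IXB : Prop := ∀ b : ℕ, 2 ≤ b →
  (∀ (j : ℕ) (t : UnitAddCircle), ix b j t < b ^ j) ∧
  (∀ (i j : ℕ) (t : UnitAddCircle), ix b i t = ix b (i + j) t / b ^ j) ∧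
  (∀ (j : ℕ) (t : UnitAddCircle), ‖t - pt b j (ix b j t)‖ ≤ ((b : ℝ) ^ j)⁻¹) ∧
  (∀ j a : ℕ, a < b ^ j → ix b j (pt b j a) = a) ∧
  (∀ j : ℕ, Measurable (ix b j)) ∧
  (∀ j a : ℕ, a < b ^ j → haar1 {t | ix b j t = a} = ENNReal.ofReal ((b : ℝ) ^ j)⁻¹) ∧
  (∀ (d : ℕ) (B : Bo d), MeasurableSet {t : TT d | inB b B t}) ∧
  (∀ (d : ℕ) (B : Bo d), (∀ i, B.2 i < b ^ B.1 i) →
    haar d {t : TT d | inB b B t} = ENNReal.ofReal ((b : ℝ) ^ (∑ i, B.1 i))⁻¹)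

/-- MCT: counting shapes. -/
def ST_MCT : Prop := ∀ (d l δ : ℕ) (τ : Fin d → ℕ), l ≤ ∑ i, τ i →
  ((shp d l).filter (fun s => ∑ i, (s i - τ i) = δ)).card ≤
    (δ + 1) ^ d * (∑ i, τ i - l + δ + 1) ^ d

/-- MNS: a numerical sum. -/
def ST_MNS : Prop := ∀ b A : ℕ, 2 ≤ b → ∃ C : ℝ, 0 < C ∧ ∀ (D : ℕ) (S : ℝ), 1 ≤ S →
  ∑ δ ∈ range D, (1 + (δ : ℝ)) ^ A * min 1 (S * ((b : ℝ) ^ δ)⁻¹) ≤ C * (1 + Real.log S) ^ (A + 1)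

/-- BXI: intersections of boxes. -/
def ST_BXI : Prop := ∀ (b d : ℕ) (R : Bo d) (s : Fin d → ℕ), 2 ≤ b →
  (∀ a : Fin d → ℕ, (∃ t, inB b R t ∧ inB b (s, a) t) → ∃ α : Fin d → ℕ,
    (∀ i, α i < b ^ max (R.1 i) (s i)) ∧
    ∀ t, inB b R t ∧ inB b (s, a) t ↔ inB b (fun i => max (R.1 i) (s i), α) t) ∧
  ((gr b s).filter (fun a => ∃ t, inB b R t ∧ inB b (s, a) t)).card ≤ b ^ (∑ i, (s i - R.1 i))

/-- MOM: moments of sums of indicators of boxes. -/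
def ST_MOM : Prop := ∀ b d Q : ℕ, 2 ≤ b → ∃ (C : ℝ) (E : ℕ), 0 < C ∧
  ∀ (l : ℕ) (S : Finset (Bo d)), S ⊆ lev b d l →
  ∫⁻ t, ((S.filter (fun B => inB b B t)).card : ℝ≥0∞) ^ (Q + 1) ∂haar d ≤
    ENNReal.ofReal (C * S.card * ((b : ℝ) ^ l)⁻¹ * (1 + Real.log S.card) ^ E)

/-- SYI: synthesis with indicators. -/
def ST_SYI : Prop := ∀ (b d : ℕ) (u q : ℝ), 2 ≤ b → 1 ≤ u → u < q → ∃ C : ℝ, 0 < C ∧
  ∀ (l : ℕ) (S : Finset (Bo d)) (y : Bo d → ℝ), S ⊆ lev b d l → (∀ B ∈ S, 0 ≤ y B) →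
  eLpNorm (fun t : TT d => ∑ B ∈ S, y B * (if inB b B t then 1 else 0)) (ENNReal.ofReal q)
    (haar d) ≤ ENNReal.ofReal (C * (b : ℝ) ^ (-((l : ℝ) / q)) * (∑ B ∈ S, y B ^ u) ^ (1 / u))

/-- TRL: envelopes are averages of translated indicators. -/
def ST_TRL : Prop := ∀ b d : ℕ, 2 ≤ b → ∃ C : ℝ, 0 < C ∧ ∀ l : ℕ,
  ∃ (K : Finset (Fin d → ℤ)) (w : (Fin d → ℤ) → ℝ) (π : (Fin d → ℤ) → Bo d → Bo d),
  (∀ k ∈ K, 0 ≤ w k) ∧ ∑ k ∈ K, w k ≤ C ∧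
  (∀ k ∈ K, ∀ B ∈ lev b d l, π k B ∈ lev b d l) ∧
  (∀ k ∈ K, Set.InjOn (π k) (lev b d l : Set (Bo d))) ∧
  ∀ B ∈ lev b d l, ∀ t, EV b B t ≤ ∑ k ∈ K, w k * (if inB b (π k B) t then 1 else 0)

/-- SYN: synthesis. -/
def ST_SYN : Prop := ∀ (b d : ℕ) (u q : ℝ), 2 ≤ b → 1 ≤ u → u < q → ∃ C : ℝ, 0 < C ∧
  ∀ (l : ℕ) (I : Finset (Bo d)) (β : Bo d → Bo d) (y : Bo d → ℂ) (g : Bo d → TT d → ℂ),
  (∀ B ∈ I, β B ∈ lev b d l) → Set.InjOn β (I : Set (Bo d)) →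
  (∀ B ∈ I, ∀ t, ‖g B t‖ ≤ EV b (β B) t) →
  eLpNorm (fun t : TT d => ∑ B ∈ I, y B * g B t) (ENNReal.ofReal q) (haar d) ≤
    ENNReal.ofReal (C * (b : ℝ) ^ (-((l : ℝ) / q)) * lp u I y)

/-- PHB: bound for the basis functions. -/
def ST_PHB : Prop := ∀ b d : ℕ, 2 ≤ b → ∃ C : ℝ, 0 < C ∧ ∀ (B : Bo d) (t : TT d),
  ‖Phi b B t‖ ≤ C * EV b B t ∧
  ∀ s : Fin d → ℕ, ‖DK b s t‖ ≤ C * (b : ℝ) ^ (∑ i, s i) * ∏ i, ev b (s i) (t i)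

/-! ### Sequence spaces -/

/-- LPT: elementary facts on the `ℓ_u` norms. -/
def ST_LPT : Prop :=
  (∀ (ι κ : Type) (u : ℝ) (S : Finset ι) (T : Finset κ) (y : κ → ι → ℂ), 1 ≤ u →
    lp u S (fun i => ∑ j ∈ T, y j i) ≤ ∑ j ∈ T, lp u S (y j)) ∧
  (∀ (ι : Type) (u : ℝ) (S : Finset ι) (a : ℂ) (y : ι → ℂ), 0 < u →
    lp u S (fun i => a * y i) = ‖a‖ * lp u S y) ∧
  (∀ (ι : Type) (u : ℝ) (S : Finset ι) (y z : ι → ℂ), 0 < u → (∀ i ∈ S, ‖y i‖ ≤ ‖z i‖) →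
    lp u S y ≤ lp u S z) ∧
  (∀ (ι : Type) (u v : ℝ) (S : Finset ι) (y : ι → ℂ), 0 < v → v ≤ u → lp u S y ≤ lp v S y)

/-- DLV: duality. -/
def ST_DLV : Prop := ∀ (ι : Type) (v A : ℝ) (S : Finset ι) (z : ι → ℂ), 1 < v → 0 ≤ A →
  (∀ w : ι → ℂ, ‖∑ i ∈ S, w i * z i‖ ≤ A * lp (v / (v - 1)) S w) → lp v S z ≤ A

/-- SCH: the Schur test. -/
def ST_SCH : Prop := ∀ (ι κ : Type) (v R Q : ℝ) (S : Finset ι) (T : Finset κ) (e : ι → κ → ℂ)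
  (z : κ → ℂ), 1 ≤ v → 0 ≤ R → 0 ≤ Q → (∀ i ∈ S, ∑ j ∈ T, ‖e i j‖ ≤ R) →
  (∀ j ∈ T, ∑ i ∈ S, ‖e i j‖ ≤ Q) →
  lp v S (fun i => ∑ j ∈ T, e i j * z j) ≤ R ^ (1 - 1 / v) * Q ^ (1 / v) * lp v T z

/-- INT: interpolation of restricted type estimates. -/
def ST_INT : Prop := ∀ u v θ : ℝ, 0 < θ → θ < 1 / 2 → 1 / θ < u → 1 ≤ v → v < 1 / (1 - θ) →
  ∃ C δ : ℝ, 0 < C ∧ 0 < δ ∧ ∀ (ι κ : Type) (S : Finset ι) (T : Finset κ) (e : ι → κ → ℂ)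
  (A D₀ D₁ : ℝ) (z : κ → ℂ), 0 ≤ A → 1 ≤ D₀ → 0 ≤ D₁ →
  (∀ S' : Finset ι, ∀ T' : Finset κ, S' ⊆ S → T' ⊆ T → (S'.card : ℝ) ≤ D₀ → (T'.card : ℝ) ≤ D₀ →
    ∑ i ∈ S', ∑ j ∈ T', ‖e i j‖ ≤ A * ((S'.card : ℝ) * T'.card) ^ (1 - θ)) →
  (∀ i ∈ S, ∑ j ∈ T, ‖e i j‖ ≤ D₁) → (∀ j ∈ T, ∑ i ∈ S, ‖e i j‖ ≤ D₁) →
  lp u S (fun i => ∑ j ∈ T, e i j * z j) ≤ C * (A + D₁ * D₀ ^ (-δ)) * lp v T z

/-! ### The analysis estimate -/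

/-- AN0: decomposition of the interpolation blocks. -/
def ST_AN0 : Prop := ∀ (b d : ℕ) (r : ℝ) (Λ : Finset (Fin d → ℤ)) (c : (Fin d → ℤ) → ℂ), 3 ≤ b →
  ∃ J₀ : ℕ, ∀ J : ℕ, J₀ ≤ J → ∀ (s : Fin d → ℕ) (t : TT d), Dop b s (tp Λ (mc r c)) t =
    ∑ τ ∈ Fintype.piFinset (fun _ : Fin d => range J),
      Dop b s (dl r b (fun i => s i + τ i - 1) Λ c) t

/-- AN1: integral representation of the blocks. -/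
def ST_AN1 : Prop := ∀ (b d : ℕ) (r : ℝ) (σ : Fin d → ℕ) (Λ : Finset (Fin d → ℤ))
  (c : (Fin d → ℤ) → ℂ) (t : TT d), 2 ≤ b →
  dl r b σ Λ c t = ∫ y, tp Λ c y * ∏ i, fk r b (σ i) (t i - y i) ∂haar d

/-- AN2: samples of the blocks. -/
def ST_AN2 : Prop := ∀ (b d : ℕ) (p v r : ℝ), 2 ≤ b → 1 < p → p < v → ∃ C : ℝ, 0 < C ∧
  ∀ (l : ℕ) (τ : Fin d → ℕ) (Λ : Finset (Fin d → ℤ)) (c : (Fin d → ℤ) → ℂ),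
  lp v (lev b d l) (fun B => dl r b (fun i => B.1 i + τ i - 1) Λ c (ptv b B)) ≤
    C * (b : ℝ) ^ (-(((l : ℝ) + ((∑ i, τ i : ℕ) : ℝ)) * (r - 1 / p))) *
      (eLpNorm (tp Λ c) (ENNReal.ofReal p) (haar d)).toReal

/-- AN3: the interpolation blocks are bounded on samples. -/
def ST_AN3 : Prop := ∀ (b d : ℕ) (v : ℝ), 3 ≤ b → 1 ≤ v → ∃ C : ℝ, 0 < C ∧
  ∀ (s : Fin d → ℕ) (g : TT d → ℂ),
  lp v (gr b s) (fun a => Dop b s g (ptv b (s, a))) ≤ C * lp v (gr b s) (fun a => g (ptv b (s, a)))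

/-- ANL: the analysis estimate. -/
def ST_ANL : Prop := ∀ (b d : ℕ) (p v r : ℝ), 3 ≤ b → 1 < p → p < v → 1 / p < r →
  ∃ C : ℝ, 0 < C ∧ ∀ (l : ℕ) (Λ : Finset (Fin d → ℤ)) (c : (Fin d → ℤ) → ℂ),
  lp v (lev b d l) (zz b (tp Λ (mc r c))) ≤ C * (b : ℝ) ^ (-((l : ℝ) * (r - 1 / p))) *
    (eLpNorm (tp Λ c) (ENNReal.ofReal p) (haar d)).toReal

/-! ### Nets -/

/-- NTA: digit functions of a net. -/
def ST_NTA : Prop := ∀ b d m : ℕ, b.Prime → d ≤ b → ∃ D : Fin (b ^ m) → Fin d → ℕ → ℕ,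
  (∀ p i k, D p i k < b) ∧ ∀ s : Fin d → ℕ, ∑ i, s i = m → ∀ e : Fin d → ℕ → ℕ,
  (∀ i k, e i k < b) → ∃! p, ∀ i, ∀ k < s i, D p i k = e i k

/-- NET: existence of nets. -/
def ST_NET : Prop := ∀ b d m : ℕ, b.Prime → d ≤ b → ∃ x : Fin (b ^ m) → TT d, IsNet b d m x

/-- SHR: few pairs of points share boxes. -/
def ST_SHR : Prop := ∀ (b d m l : ℕ) (x : Fin (b ^ m) → TT d) (F : Finset (Fin (b ^ m))) (A : ℝ),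
  2 ≤ b → 1 ≤ d → l ≤ m → IsNet b d m x → 1 < A → F.Nonempty →
  ∑ s ∈ shp d l, ∑ p ∈ F,
    ((F.filter (fun p' => ∀ i, ix b (s i) (x p' i) = ix b (s i) (x p i))).card : ℝ) ≤
  (((d : ℝ) - 1) * A * (shp d l).card +
    (b : ℝ) ^ (m - l) * (((m - l : ℕ) : ℝ) * (Real.log F.card / Real.log A)) ^ (d - 1)) * F.card

/-- TL: the second moment of the degree over the net, indicators. -/
def ST_TL : Prop := ∀ (b d : ℕ) (ε C₁ : ℝ), 2 ≤ b → 1 ≤ d → 0 < ε → 0 < C₁ → ∃ C : ℝ, 0 < C ∧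
  ∀ (n m l : ℕ) (x : Fin (b ^ m) → TT d) (S : Finset (Bo d)), 2 ≤ n → IsNet b d m x →
  (l : ℝ) ≤ C₁ * n → (b : ℝ) ^ m ≤ (n : ℝ) ^ C₁ * (b : ℝ) ^ l → S ⊆ lev b d l →
  (S.card : ℝ) ≤ (n : ℝ) ^ C₁ →
  ∑ p, ((S.filter (fun B => inB b B (x p))).card : ℝ) ^ 2 ≤
    C * (n : ℝ) ^ ε * ((n : ℝ) ^ (d - 1) + (b : ℝ) ^ m / (b : ℝ) ^ l) * S.card

/-- TLE: the second moment of the degree over the net, envelopes. -/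
def ST_TLE : Prop := ∀ (b d : ℕ) (ε C₁ : ℝ), 2 ≤ b → 1 ≤ d → 0 < ε → 0 < C₁ → ∃ C : ℝ, 0 < C ∧
  ∀ (n m l : ℕ) (x : Fin (b ^ m) → TT d) (S : Finset (Bo d)), 2 ≤ n → IsNet b d m x →
  (l : ℝ) ≤ C₁ * n → (b : ℝ) ^ m ≤ (n : ℝ) ^ C₁ * (b : ℝ) ^ l → S ⊆ lev b d l →
  (S.card : ℝ) ≤ (n : ℝ) ^ C₁ →
  ∑ p, (∑ B ∈ S, EV b B (x p)) ^ 2 ≤
    C * (n : ℝ) ^ ε * ((n : ℝ) ^ (d - 1) + (b : ℝ) ^ m / (b : ℝ) ^ l) * S.card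

/-- OVX: sums of envelopes over a net. -/
def ST_OVX : Prop := ∀ b d : ℕ, 2 ≤ b → ∃ C : ℝ, 0 < C ∧
  ∀ (m : ℕ) (x : Fin (b ^ m) → TT d) (σ : Fin d → ℕ) (c : TT d), IsNet b d m x →
  ∑ p, ∏ i, ev b (σ i) (x p i - c i) ≤ C * (1 + (b : ℝ) ^ m / (b : ℝ) ^ (∑ i, σ i))

/-- NQ: quadrature by nets. -/
def ST_NQ : Prop := ∀ b d : ℕ, 2 ≤ b → ∃ C : ℝ, 0 < C ∧
  ∀ (m : ℕ) (x : Fin (b ^ m) → TT d) (σ : Fin d → ℕ) (c : TT d) (G : Fin d → UnitAddCircle → ℂ),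
  IsNet b d m x → ∑ i, σ i ≤ m → (∀ i t, ‖G i t‖ ≤ ev b (σ i) (t - c i)) →
  (∀ i t t', ‖G i t - G i t'‖ ≤
    (b : ℝ) ^ σ i * ‖t - t'‖ * (ev b (σ i) (t - c i) + ev b (σ i) (t' - c i))) →
  ‖(∑ p, ∏ i, G i (x p i)) - (b : ℂ) ^ m * ∏ i, ∫ t, G i t ∂haar1‖ ≤
    C * (1 + ((m - ∑ i, σ i : ℕ) : ℝ)) ^ d

/-! ### The quadrature errors -/

/-- PK: products of kernels. -/
def ST_PK : Prop := ∀ b : ℕ, 3 ≤ b → ∃ C : ℝ, 0 < C ∧ ∀ (i i' : ℕ) (c c' : UnitAddCircle),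
  ∃ c'' : UnitAddCircle, ∀ t t' : UnitAddCircle,
  ‖((b : ℂ) ^ i)⁻¹ * (dk b i (c - t) * ik b i' (t - c'))‖ ≤ C * ev b (max i i') (t - c'') ∧
  ‖((b : ℂ) ^ i)⁻¹ * (dk b i (c - t) * ik b i' (t - c')) -
      ((b : ℂ) ^ i)⁻¹ * (dk b i (c - t') * ik b i' (t' - c'))‖ ≤
    C * ((b : ℝ) ^ (max i i') * ‖t - t'‖ *
      (ev b (max i i') (t - c'') + ev b (max i i') (t' - c'')))

/-- ENN: near entries. -/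
def ST_ENN : Prop := ∀ b d : ℕ, 3 ≤ b → ∃ C : ℝ, 0 < C ∧
  ∀ (m : ℕ) (x : Fin (b ^ m) → TT d) (B B' : Bo d), IsNet b d m x →
  ∑ i, max (B.1 i) (B'.1 i) ≤ m → ‖Ent b m x B B'‖ ≤
    C * ((b : ℝ) ^ (∑ i, B.1 i) / (b : ℝ) ^ m) *
      (1 + ((m - ∑ i, max (B.1 i) (B'.1 i) : ℕ) : ℝ)) ^ d

/-- ENF: all entries. -/
def ST_ENF : Prop := ∀ b d : ℕ, 3 ≤ b → ∃ C : ℝ, 0 < C ∧
  ∀ (m : ℕ) (x : Fin (b ^ m) → TT d) (B B' : Bo d), ‖Ent b m x B B'‖ ≤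
    C * ((b : ℝ) ^ (∑ i, B.1 i) / (b : ℝ) ^ m) * (∑ p, EV b B (x p) * EV b B' (x p) +
      (b : ℝ) ^ m * ∫ t, EV b B t * EV b B' t ∂haar d)

/-- R1: all entries are small. -/
def ST_R1 : Prop := ∀ b d : ℕ, 3 ≤ b → ∃ C : ℝ, 0 < C ∧
  ∀ (m l l' : ℕ) (x : Fin (b ^ m) → TT d), IsNet b d m x → l ≤ m → ∀ B ∈ lev b d l,
  ∀ B' ∈ lev b d l', ‖Ent b m x B B'‖ ≤
    C * ((b : ℝ) ^ l / (b : ℝ) ^ m) * (1 + ((m - l : ℕ) : ℝ)) ^ d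

/-- R2: the square root bound. -/
def ST_R2 : Prop := ∀ (b d : ℕ) (ε C₁ : ℝ), 3 ≤ b → 1 ≤ d → 0 < ε → 0 < C₁ → ∃ C : ℝ, 0 < C ∧
  ∀ (n m l l' : ℕ) (x : Fin (b ^ m) → TT d) (S S' : Finset (Bo d)), 2 ≤ n → IsNet b d m x →
  (l : ℝ) ≤ C₁ * n → (l' : ℝ) ≤ C₁ * n → (b : ℝ) ^ m ≤ (n : ℝ) ^ C₁ * (b : ℝ) ^ l →
  (b : ℝ) ^ m ≤ (n : ℝ) ^ C₁ * (b : ℝ) ^ l' → S ⊆ lev b d l → S' ⊆ lev b d l' →
  (S.card : ℝ) ≤ (n : ℝ) ^ C₁ → (S'.card : ℝ) ≤ (n : ℝ) ^ C₁ →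
  ∑ B ∈ S, ∑ B' ∈ S', ‖Ent b m x B B'‖ ≤ C * (n : ℝ) ^ ε * ((b : ℝ) ^ l / (b : ℝ) ^ m) *
    Real.sqrt (((n : ℝ) ^ (d - 1) + (b : ℝ) ^ m / (b : ℝ) ^ l) *
      ((n : ℝ) ^ (d - 1) + (b : ℝ) ^ m / (b : ℝ) ^ l')) * Real.sqrt ((S.card : ℝ) * S'.card)

/-- R3: row and column sums. -/
def ST_R3 : Prop := ∀ b d : ℕ, 3 ≤ b → 1 ≤ d → ∃ C : ℝ, 0 < C ∧
  ∀ (m l l' : ℕ) (x : Fin (b ^ m) → TT d), IsNet b d m x → l ≤ m →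
  (∀ B ∈ lev b d l, ∑ B' ∈ lev b d l', ‖Ent b m x B B'‖ ≤ C * (1 + (l' : ℝ)) ^ (d - 1)) ∧
  (∀ B' ∈ lev b d l', ∑ B ∈ lev b d l, ‖Ent b m x B B'‖ ≤
    C * (1 + (l : ℝ)) ^ (d - 1) * ((b : ℝ) ^ l / (b : ℝ) ^ m) *
      (1 + (b : ℝ) ^ m / (b : ℝ) ^ l'))

/-- EB: the main estimate for the quadrature errors. -/
def ST_EB : Prop := ∀ (b d : ℕ) (u v θ ε C₁ : ℝ), 3 ≤ b → 1 ≤ d → 0 < θ → θ < 1 / 2 → 1 / θ < u →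
  1 ≤ v → v < 1 / (1 - θ) → 0 < ε → 0 < C₁ → ∃ C : ℝ, 0 < C ∧
  ∀ (n m l l' : ℕ) (x : Fin (b ^ m) → TT d) (z : Bo d → ℂ), 2 ≤ n → IsNet b d m x → l ≤ m →
  (l : ℝ) ≤ C₁ * n → (l' : ℝ) ≤ C₁ * n → (b : ℝ) ^ m ≤ (n : ℝ) ^ C₁ * (b : ℝ) ^ l →
  (b : ℝ) ^ m ≤ (n : ℝ) ^ C₁ * (b : ℝ) ^ l' →
  lp u (lev b d l) (fun B => ∑ B' ∈ lev b d l', Ent b m x B B' * z B') ≤
    C * (n : ℝ) ^ ε * ((b : ℝ) ^ l / (b : ℝ) ^ m) *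
      (((n : ℝ) ^ (d - 1) + (b : ℝ) ^ m / (b : ℝ) ^ l) *
        ((n : ℝ) ^ (d - 1) + (b : ℝ) ^ m / (b : ℝ) ^ l')) ^ θ * lp v (lev b d l') z

/-- EC: the quadrature errors for very high levels. -/
def ST_EC : Prop := ∀ (b d : ℕ) (v : ℝ), 3 ≤ b → 1 ≤ d → 1 ≤ v → ∃ C : ℝ, 0 < C ∧
  ∀ (m l l' : ℕ) (x : Fin (b ^ m) → TT d) (z : Bo d → ℂ), IsNet b d m x → l ≤ m → m ≤ l' →
  lp v (lev b d l) (fun B => ∑ B' ∈ lev b d l', Ent b m x B B' * z B') ≤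
    C * (1 + (l : ℝ) + l') ^ d * lp v (lev b d l') z

/-- HB: the estimate for the exact coefficients. -/
def ST_HB : Prop := ∀ (b d : ℕ) (v : ℝ), 3 ≤ b → 1 ≤ d → 1 ≤ v → ∃ C : ℝ, 0 < C ∧
  ∀ (l l' : ℕ) (z : Bo d → ℂ),
  lp v (lev b d l) (fun B => ∑ B' ∈ lev b d l', Hm b B B' * z B') ≤
    C * (1 + ((l' - l : ℕ) : ℝ)) ^ d * (b : ℝ) ^ (-(((l' - l : ℕ) : ℝ) / v)) *
      lp v (lev b d l') z ∧
  (l' + 2 * d < l → ∀ B ∈ lev b d l, ∀ B' ∈ lev b d l', Hm b B B' = 0)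

/-! ### Summation -/

/-- the numbers bounding the norms of the level blocks -/
noncomputable def TB (b d n₀ n₃ n m : ℕ) (v θ ε : ℝ) (l l' : ℕ) : ℝ :=
  if n₀ ≤ l ∧ l ≤ n then
    (if l' ≤ n₃ then (n : ℝ) ^ ε * ((b : ℝ) ^ l / (b : ℝ) ^ m) *
      (((n : ℝ) ^ (d - 1) + (b : ℝ) ^ m / (b : ℝ) ^ l) *
        ((n : ℝ) ^ (d - 1) + (b : ℝ) ^ m / (b : ℝ) ^ l')) ^ θ
    else (1 + (l : ℝ) + l') ^ d)
  else (if l ≤ l' + 2 * d then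
    (1 + ((l' - l : ℕ) : ℝ)) ^ d * (b : ℝ) ^ (-(((l' - l : ℕ) : ℝ) / v)) else 0)

/-- ERR: the error of the algorithm, reduced to numbers. -/
def ST_ERR : Prop := ∀ (b d : ℕ) (p q r u v θ ε C₁ : ℝ), 3 ≤ b → 1 ≤ d → 1 < p → p < v → v < u →
  u < q → 1 / p < r → 0 < θ → θ < 1 / 2 → 1 / θ < u → v < 1 / (1 - θ) → 0 < ε → 0 < C₁ →
  ∃ C : ℝ, 0 < C ∧ ∀ (n₀ n₁ n₃ n m : ℕ) (x : Fin (b ^ m) → TT d), 2 ≤ n → n ≤ m → m ≤ n₃ →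
  (n₃ : ℝ) ≤ C₁ * n → (b : ℝ) ^ m ≤ (n : ℝ) ^ C₁ * (b : ℝ) ^ n₀ →
  (b : ℝ) ^ m ≤ (n : ℝ) ^ C₁ * (b : ℝ) ^ n₁ → IsNet b d m x →
  ∀ (Λ : Finset (Fin d → ℤ)) (c : (Fin d → ℤ) → ℂ), ∃ L : ℕ,
  eLpNorm (fun t => tp Λ (mc r c) t - Aop b m n₀ n₁ n x (tp Λ (mc r c)) t) (ENNReal.ofReal q)
    (haar d) ≤ ENNReal.ofReal (C * ∑ l ∈ range (L + 2 * d + 1), ∑ l' ∈ Ioc n₁ L,
      (b : ℝ) ^ (-((l : ℝ) / q)) * (b : ℝ) ^ (-((l' : ℝ) * (r - 1 / p))) *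
        TB b d n₀ n₃ n m v θ ε l l') * eLpNorm (tp Λ c) (ENNReal.ofReal p) (haar d)

/-- NLO: the sum over the low levels. -/
def ST_NLO : Prop := ∀ (b d : ℕ) (γ v q : ℝ), 2 ≤ b → 0 < γ → 1 < v → v < q → ∃ C : ℝ, 0 < C ∧
  ∀ n₀ n₁ L : ℕ, n₀ ≤ n₁ →
  ∑ l ∈ range n₀, ∑ l' ∈ Ioc n₁ L, (b : ℝ) ^ (-((l : ℝ) / q)) * (b : ℝ) ^ (-((l' : ℝ) * γ)) *
    ((1 + ((l' - l : ℕ) : ℝ)) ^ d * (b : ℝ) ^ (-(((l' - l : ℕ) : ℝ) / v))) ≤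
  C * (1 + ((n₁ - n₀ : ℕ) : ℝ)) ^ d * (b : ℝ) ^ (-((n₁ : ℝ) * (γ + 1 / q))) *
    (b : ℝ) ^ (-(((n₁ - n₀ : ℕ) : ℝ) * (1 / v - 1 / q)))

/-- NHI: the sum over the high levels. -/
def ST_NHI : Prop := ∀ (b d : ℕ) (γ v q : ℝ), 2 ≤ b → 0 < γ → 1 < v → v < q → ∃ C : ℝ, 0 < C ∧
  ∀ n L L' : ℕ,
  ∑ l ∈ Ioc n L', ∑ l' ∈ (range (L + 1)).filter (fun l' => l ≤ l' + 2 * d),
    (b : ℝ) ^ (-((l : ℝ) / q)) * (b : ℝ) ^ (-((l' : ℝ) * γ)) *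
    ((1 + ((l' - l : ℕ) : ℝ)) ^ d * (b : ℝ) ^ (-(((l' - l : ℕ) : ℝ) / v))) ≤
  C * (b : ℝ) ^ (-((n : ℝ) * (γ + 1 / q)))

/-- NMI: the sum over the middle levels. -/
def ST_NMI : Prop := ∀ (b : ℕ) (γ θ q : ℝ), 2 ≤ b → 0 < γ → 0 < θ → θ < 1 / 2 → 2 < q →
  ∃ C : ℝ, 0 < C ∧ ∀ (n₀ n₁ n m L : ℕ) (N : ℝ), 1 ≤ N → n ≤ m →
  (b : ℝ) ^ m ≤ b * N * (b : ℝ) ^ n → (b : ℝ) ^ m ≤ b * N * (b : ℝ) ^ n₁ →
  ∑ l ∈ Icc n₀ n, ∑ l' ∈ Ioc n₁ L, (b : ℝ) ^ (-((l : ℝ) / q)) * (b : ℝ) ^ (-((l' : ℝ) * γ)) *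
    (((b : ℝ) ^ l / (b : ℝ) ^ m) *
      ((N + (b : ℝ) ^ m / (b : ℝ) ^ l) * (N + (b : ℝ) ^ m / (b : ℝ) ^ l')) ^ θ) ≤
  C * N ^ (2 * θ) * ((b : ℝ) ^ n / (b : ℝ) ^ m) * (b : ℝ) ^ (-((n : ℝ) / q)) *
    (b : ℝ) ^ (-((n₁ : ℝ) * γ))

/-- NFA: the sum over the very high levels. -/
def ST_NFA : Prop := ∀ (b d : ℕ) (γ q : ℝ), 2 ≤ b → 0 < γ → 1 < q → ∃ C : ℝ, 0 < C ∧
  ∀ n₀ n₃ n L : ℕ, n ≤ n₃ →
  ∑ l ∈ Icc n₀ n, ∑ l' ∈ Ioc n₃ L, (b : ℝ) ^ (-((l : ℝ) / q)) * (b : ℝ) ^ (-((l' : ℝ) * γ)) *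
    (1 + (l : ℝ) + l') ^ d ≤
  C * (1 + (n₃ : ℝ)) ^ d * (b : ℝ) ^ (-((n₀ : ℝ) / q)) * (b : ℝ) ^ (-((n₃ : ℝ) * γ))

/-- number of extra levels of the net -/
noncomputable def k0 (b d : ℕ) (κ : ℝ) (n : ℕ) : ℕ := ⌈κ * Real.logb b ((n : ℝ) ^ (d - 1))⌉₊

/-- logarithm of the number of shapes -/
def ell (b d n : ℕ) : ℕ := Nat.clog b (n ^ (d - 1))

/-- NUM: the choice of the parameters. -/
def ST_NUM : Prop := ∀ (b d : ℕ) (γ v q θ ε κ : ℝ), 2 ≤ b → 2 ≤ d → 0 < γ → 1 < v → v < 2 →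
  2 < q → 0 < θ → θ < 1 / 2 → 0 < ε → 0 < κ → κ < 1 →
  ((d : ℝ) - 1) * (2 * θ - κ + (1 - κ) * γ) + ε ≤ 0 →
  ∃ (C₀ C₃ : ℕ) (C : ℝ) (n₂ : ℕ), 0 < C ∧ ∀ n L : ℕ, n₂ ≤ n →
  let m := n + k0 b d κ n
  let n₁ := m - ell b d n
  let n₀ := n₁ - C₀ * ell b d n
  let n₃ := m + C₃ * ell b d n
  ∑ l ∈ range (L + 2 * d + 1), ∑ l' ∈ Ioc n₁ L,
      (b : ℝ) ^ (-((l : ℝ) / q)) * (b : ℝ) ^ (-((l' : ℝ) * γ)) *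
        TB b d n₀ n₃ n m v θ ε l l' ≤ C * (b : ℝ) ^ (-((n : ℝ) * (γ + 1 / q)))

/-! ### The main theorem -/

/-- ALG: the algorithm uses few function values. -/
def ST_ALG : Prop := ∀ (b d m n₀ n₁ n : ℕ) (x : Fin (b ^ m) → TT d), 3 ≤ b →
  ∃ (M : ℕ) (y : Fin M → TT d) (ψ : Fin M → C(TT d, ℝ)),
  M ≤ (∑ l ∈ range (n₁ + 1), (shp d l).card * b ^ l) + b ^ m ∧
  ∀ (f : TT d → ℂ) (t : TT d), Aop b m n₀ n₁ n x f t = ∑ i, f (y i) * ((ψ i t : ℝ) : ℂ)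

/-- EMB: the class is bounded in `L_q`. -/
def ST_EMB : Prop := ∀ (d : ℕ) (p q r : ℝ), 1 ≤ d → 1 < p → p < q → 1 / p < r →
  ∃ C : ℝ, 0 < C ∧ ∀ (Λ : Finset (Fin d → ℤ)) (c : (Fin d → ℤ) → ℂ),
  eLpNorm (tp Λ (mc r c)) (ENNReal.ofReal q) (haar d) ≤
    ENNReal.ofReal C * eLpNorm (tp Λ c) (ENNReal.ofReal p) (haar d)

/-- MAIN: the error bound for special numbers of nodes. -/
def ST_MAIN : Prop := ∀ (d : ℕ) (p q r κ : ℝ), 2 ≤ d → 1 < p → p < 2 → 2 < q → 1 / p < r →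
  (r - 1 / p + 2 * max (1 - 1 / p) (1 / q)) / (r - 1 / p + 1) < κ → κ < 1 →
  ∃ (b : ℕ) (C : ℝ) (n₂ : ℕ), 3 ≤ b ∧ 0 < C ∧ ∀ n : ℕ, n₂ ≤ n →
  ∃ (M : ℕ) (y : Fin M → TT d) (ψ : Fin M → C(TT d, ℝ)),
  (M : ℝ) ≤ C * (b : ℝ) ^ n * (n : ℝ) ^ (((d : ℝ) - 1) * κ) ∧
  ∀ (Λ : Finset (Fin d → ℤ)) (c : (Fin d → ℤ) → ℂ),
  eLpNorm (fun t => tp Λ (mc r c) t - ∑ i, tp Λ (mc r c) (y i) * ((ψ i t : ℝ) : ℂ))
    (ENNReal.ofReal q) (haar d) ≤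
    ENNReal.ofReal (C * (b : ℝ) ^ (-((n : ℝ) * (r - 1 / p + 1 / q)))) *
      eLpNorm (tp Λ c) (ENNReal.ofReal p) (haar d)

/-- DEN: approximation by trigonometric polynomials. -/
def ST_DEN : Prop := ∀ (𝕜 : Type) [RCLike 𝕜] (d : ℕ) (r p : ℝ), 1 ≤ p → ∃ C : ℝ, 0 < C ∧
  ∀ f ∈ SN.mixedClass 𝕜 d r p, ∀ ε : ℝ, 0 < ε →
  ∃ (Λ : Finset (Fin d → ℤ)) (c : (Fin d → ℤ) → ℂ),
  eLpNorm (tp Λ c) (ENNReal.ofReal p) (haar d) ≤ ENNReal.ofReal C ∧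
  ∀ t, ‖SN.toC (f t) - tp Λ (mc r c) t‖ ≤ ε

/-- FIN: the final theorem. -/
def ST_FIN : Prop := ∀ (𝕜 : Type) [RCLike 𝕜] (d : ℕ) (p q r κ : ℝ), 2 ≤ d → 1 < p → p < 2 →
  2 < q → 1 / p < r → (r - 1 / p + 2 * max (1 - 1 / p) (1 / q)) / (r - 1 / p + 1) < κ →
  ∃ C : ℝ, 0 < C ∧ ∀ m : ℕ, 2 ≤ m → SN.samplingNumber 𝕜 d r p q m ≤
    ENNReal.ofReal (C * ((m : ℝ)⁻¹ * Real.log m ^ (((d : ℝ) - 1) * κ)) ^ (r - 1 / p + 1 / q))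

end Pool.Agent.Helper37.SU
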